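import Pool.Agent.Y444.RP.Stm

set_option autoImplicit false

universe u v w

open Set TopologicalSpace

namespace Pool.Agent.Y444.RP

open Pool.Agent.Helper332.NB

/-- The maximal members of a Noetherian family of subinfinite rank with a property. -/
theorem finite_max {X : Type u} {Γ : Set (Set X)} (hr : SubinfiniteRank Γ) (T : Set (Set X))
    (hT : T ⊆ Γ) (x : X) : {B | (B ∈ T ∧ ∀ B' ∈ T, B ⊆ B' → B' = B) ∧ x ∈ B}.Finite := by
  refine hr _ (fun B hB => hT hB.1.1) ?_ ⟨x, fun B hB => hB.2⟩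
  intro B hB B' hB' hsub
  exact (hB.1.2 B' hB'.1.1 hsub).symm

/-- A space whose topology has a base which is a countable union of pulled back Noetherian
families of subinfinite rank. -/
theorem sigma_of {P : Type u} [TopologicalSpace P] {Q : ℕ → Type u} (q : ∀ n, P → Q n)
    (Δ : ∀ n, Set (Set (Q n))) (hN : ∀ n, Noetherian (Δ n)) (hr : ∀ n, SubinfiniteRank (Δ n))
    (ho : ∀ n, ∀ B ∈ Δ n, IsOpen (q n ⁻¹' B))
    (hb : ∀ (x : P) (O : Set P), IsOpen O → x ∈ O → ∃ n, ∃ B ∈ Δ n, q n x ∈ B ∧ q n ⁻¹' B ⊆ O)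
    (S : Set P) : SigmaMetacompact S := by
  intro 𝒰 h𝒰 hcov
  set T : ∀ n, Set (Set (Q n)) :=
    fun n => {B | B ∈ Δ n ∧ ∃ U ∈ 𝒰, (Subtype.val : S → P) ⁻¹' (q n ⁻¹' B) ⊆ U} with hT
  set M : ∀ n, Set (Set (Q n)) := fun n => {B | B ∈ T n ∧ ∀ B' ∈ T n, B ⊆ B' → B' = B} with hM
  refine ⟨fun n => (fun B => (Subtype.val : S → P) ⁻¹' (q n ⁻¹' B)) '' M n, ?_, ?_, ?_, ?_⟩
  · rintro n _ ⟨B, hBM, rfl⟩
    exact (ho n B hBM.1.1).preimage continuous_subtype_val
  · rintro n _ ⟨B, hBM, rfl⟩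
    exact hBM.1.2
  · rw [eq_univ_iff_forall]
    intro y
    have hy : y ∈ ⋃₀ 𝒰 := hcov ▸ mem_univ y
    obtain ⟨U, hU, hyU⟩ := hy
    obtain ⟨O, hO, hOU⟩ := isOpen_induced_iff.1 (h𝒰 U hU)
    have hyO : y.1 ∈ O := by
      have : y ∈ Subtype.val ⁻¹' O := hOU ▸ hyU
      exact this
    obtain ⟨n, B, hB, hyB, hBO⟩ := hb y.1 O hO hyO
    obtain ⟨B', hB', hmax⟩ := (hN n).exists_maximal (S := {B' | B' ∈ T n ∧ B ⊆ B'})
      (fun U hU => hU.1.1)
      ⟨B, ⟨hB, U, hU, (preimage_mono hBO).trans hOU.subset⟩, subset_rfl⟩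
    refine mem_iUnion.2 ⟨n, _, ⟨B', ⟨hB'.1, fun B'' hB'' hsub =>
      hmax B'' ⟨hB'', hB'.2.trans hsub⟩ hsub⟩, rfl⟩, hB'.2 hyB⟩
  · intro n y
    have hfin := finite_max (hr n) (T n) (fun B hB => hB.1) (q n y.1)
    refine (hfin.image (fun B => (Subtype.val : S → P) ⁻¹' (q n ⁻¹' B))).subset ?_
    rintro _ ⟨⟨B, hBM, rfl⟩, hyB⟩
    exact ⟨B, ⟨hBM, hyB⟩, rfl⟩

theorem count : CountStm.{u} := by
  intro X _ Γ hB hN hr S
  refine sigma_of (P := ∀ i, X i) (Q := fun n => ∀ i : Fin n, X i) (fun n x i => x i)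
    (fun n => boxes fun i : Fin n => Γ i) (fun n => boxes_noetherian (fun i => hN i) fun i => hr i)
    (fun n => boxes_subinfinite (fun i => hN i) fun i => hr i) ?_ ?_ S
  · rintro n _ ⟨B, hB', rfl⟩
    have : IsOpen (Set.pi univ B) := isOpen_set_pi (toFinite _) fun i _ => (hB i).isOpen (hB' i)
    have hc : Continuous (fun (x : ∀ i, X i) (i : Fin n) => x i) :=
      continuous_pi fun i => continuous_apply (i : ℕ)
    exact this.preimage hc
  · intro x O hO hx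
    obtain ⟨I, u, hu, huO⟩ := isOpen_pi_iff.1 hO x hx
    choose! B hB1 hB2 hB3 using fun (i : ℕ) (hi : i ∈ I) =>
      (hB i).exists_subset_of_mem_open (hu i hi).2 (hu i hi).1
    choose C hC1 hC2 using fun i : ℕ =>
      (hB i).exists_subset_of_mem_open (mem_univ (x i)) isOpen_univ
    classical
    let n := I.sup id + 1
    refine ⟨n, Set.pi univ fun i : Fin n => if (i : ℕ) ∈ I then B i else C i,
      ⟨_, fun i => ?_, rfl⟩, ?_, ?_⟩
    · by_cases hi : (i : ℕ) ∈ I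
      · simpa [hi] using hB1 i hi
      · simpa [hi] using hC1 i
    · intro i _
      by_cases hi : (i : ℕ) ∈ I
      · simpa [hi] using hB2 i hi
      · simpa [hi] using (hC2 i).1
    · intro y hy
      refine huO fun i hi => ?_
      have hin : i < n := Nat.lt_succ_of_le (Finset.le_sup (f := id) hi)
      have := hy ⟨i, hin⟩ (mem_univ _)
      have hi' : i ∈ I := hi
      simp only [hi', if_true] at this
      exact hB3 i hi' this

end Pool.Agent.Y444.RP
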