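import Pool.Agent.Y444.RP.Stm

set_option autoImplicit false

open Set TopologicalSpace

namespace Pool.Agent.Y444.RP

open Pool.Agent.Helper332.NB

/-- the underlying real number -/
def toR (x : Sorg) : ℝ := x

/-- half-open intervals -/
def I (a b : ℝ) : Set Sorg := (Ico a b : Set ℝ)

theorem mem_I {a b : ℝ} {x : Sorg} : x ∈ I a b ↔ a ≤ toR x ∧ toR x < b := Iff.rfl

/-- The intervals form a base. -/
theorem basis : BasisStm := by
  refine ⟨?_, ?_, rfl⟩
  · rintro _ ⟨a, b, rfl⟩ _ ⟨c, d, rfl⟩ x hx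
    refine ⟨I (max a c) (min b d), ⟨max a c, min b d, rfl⟩, ?_, ?_⟩
    · have h1 : a ≤ toR x ∧ toR x < b := hx.1
      have h2 : c ≤ toR x ∧ toR x < d := hx.2
      exact mem_I.2 ⟨max_le h1.1 h2.1, lt_min h1.2 h2.2⟩
    · intro y hy
      have h := mem_I.1 hy
      exact ⟨mem_I.2 ⟨(le_max_left _ _).trans h.1, h.2.trans_le (min_le_left _ _)⟩,
        mem_I.2 ⟨(le_max_right _ _).trans h.1, h.2.trans_le (min_le_right _ _)⟩⟩
  · rw [eq_univ_iff_forall]
    intro x
    exact ⟨I (toR x) (toR x + 1), ⟨toR x, toR x + 1, rfl⟩, mem_I.2 ⟨le_rfl, lt_add_one _⟩⟩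

theorem isOpen_I (a b : ℝ) : IsOpen (I a b) := basis.isOpen ⟨a, b, rfl⟩

theorem isClosed_I (a b : ℝ) : IsClosed (I a b) := by
  rw [← isOpen_compl_iff, basis.isOpen_iff]
  intro x hx
  have hx' : ¬ (a ≤ toR x ∧ toR x < b) := hx
  rcases lt_or_ge (toR x) a with h | h
  · refine ⟨I (toR x) a, ⟨toR x, a, rfl⟩, mem_I.2 ⟨le_rfl, h⟩, ?_⟩
    intro y hy hy'
    exact absurd (mem_I.1 hy).2 (not_lt.2 (mem_I.1 hy').1)
  · have hb' : b ≤ toR x := not_lt.1 fun h' => hx' ⟨h, h'⟩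
    refine ⟨I (toR x) (toR x + 1), ⟨toR x, toR x + 1, rfl⟩, mem_I.2 ⟨le_rfl, lt_add_one _⟩, ?_⟩
    intro y hy hy'
    exact absurd (hb'.trans (mem_I.1 hy).1) (not_le.2 (mem_I.1 hy').2)

/-- The Sorgenfrey line is a `T3` space. -/
theorem sorg_t3 : T3Space Sorg := by
  have h0 : T0Space Sorg := by
    refine ⟨fun x y hxy => ?_⟩
    have h1 := (inseparable_iff_forall_isOpen.1 hxy) _ (isOpen_I (toR x) (toR x + 1))
    have h2 := (inseparable_iff_forall_isOpen.1 hxy) _ (isOpen_I (toR y) (toR y + 1))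
    have h3 : toR x ≤ toR y := (h1.1 (mem_I.2 ⟨le_rfl, lt_add_one _⟩)).1
    have h4 : toR y ≤ toR x := (h2.2 (mem_I.2 ⟨le_rfl, lt_add_one _⟩)).1
    exact (le_antisymm h3 h4 : toR x = toR y)
  have hreg : RegularSpace Sorg := by
    refine RegularSpace.of_exists_mem_nhds_isClosed_subset fun x s hs => ?_
    obtain ⟨_, ⟨a, b, rfl⟩, hx, hsub⟩ := basis.mem_nhds_iff.1 hs
    exact ⟨I a b, (isOpen_I a b).mem_nhds hx, isClosed_I a b, hsub⟩
  exact { toT0Space := h0, toRegularSpace := hreg }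

/-- A `T1` space with a base of rank one is regular. -/
theorem t3_of_rankOne {X : Type*} [TopologicalSpace X] [T1Space X] {B : Set (Set X)}
    (hB : IsTopologicalBasis B) (hr : RankOne B) : T3Space X := by
  have hcl : ∀ U ∈ B, IsClosed U := by
    intro U hU
    rw [← isOpen_compl_iff, hB.isOpen_iff]
    intro x hx
    by_contra hcon
    push Not at hcon
    have h1 : ∀ V ∈ B, x ∈ V → U ⊆ V := by
      intro V hV hxV
      obtain ⟨y, hyV, hyU⟩ := not_subset.1 (hcon V hV hxV)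
      have hyU' : y ∈ U := not_not.1 hyU
      rcases hr y V hV U hU hyV hyU' with h | h
      · exact absurd (h hxV) hx
      · exact h
    have hne : U.Nonempty := by
      obtain ⟨V, hV, hxV, -⟩ := hB.exists_subset_of_mem_open (mem_univ x) isOpen_univ
      obtain ⟨y, -, hyU⟩ := not_subset.1 (hcon V hV hxV)
      exact ⟨y, not_not.1 hyU⟩
    obtain ⟨y, hy⟩ := hne
    have hxy : x ∈ ({y} : Set X)ᶜ := fun h => hx (by rw [mem_singleton_iff.1 h]; exact hy)
    obtain ⟨V, hV, hxV, hVy⟩ := hB.exists_subset_of_mem_open hxy isOpen_compl_singleton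
    exact hVy (h1 V hV hxV hy) rfl
  have hreg : RegularSpace X := by
    refine RegularSpace.of_exists_mem_nhds_isClosed_subset fun x s hs => ?_
    obtain ⟨U, hU, hx, hsub⟩ := hB.mem_nhds_iff.1 hs
    exact ⟨U, (hB.isOpen hU).mem_nhds hx, hcl U hU, hsub⟩
  exact { toT0Space := inferInstance, toRegularSpace := hreg }

end Pool.Agent.Y444.RP
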