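import Pool.Agent.Helper332.NB7

/-!
# Products of spaces with bases of small rank: definitions and block statements (helper444)
-/

set_option autoImplicit false

universe u v w

open Set TopologicalSpace

namespace Pool.Agent.Y444.RP

open Pool.Agent.Helper332.NB

/-- Rank one: the members through a point are comparable. -/
def RankOne {X : Type u} (Γ : Set (Set X)) : Prop :=
  ∀ x : X, ∀ U ∈ Γ, ∀ V ∈ Γ, x ∈ U → x ∈ V → U ⊆ V ∨ V ⊆ U

/-- Every open cover has an open refinement which is the union of countably many point-finite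
families. -/
def SigmaMetacompact (X : Type u) [TopologicalSpace X] : Prop :=
  ∀ 𝒰 : Set (Set X), (∀ U ∈ 𝒰, IsOpen U) → ⋃₀ 𝒰 = univ →
    ∃ 𝒱 : ℕ → Set (Set X), (∀ n, ∀ V ∈ 𝒱 n, IsOpen V) ∧ (∀ n, ∀ V ∈ 𝒱 n, ∃ U ∈ 𝒰, V ⊆ U) ∧
      ⋃ n, ⋃₀ (𝒱 n) = univ ∧ ∀ n, ∀ x : X, {V ∈ 𝒱 n | x ∈ V}.Finite

/-- The Sorgenfrey line. -/
def Sorg : Type := ℝ

/-- The Sorgenfrey topology is generated by the intervals `[a, b)`. -/
instance : TopologicalSpace Sorg := generateFrom {s | ∃ a b : ℝ, s = (Ico a b : Set ℝ)}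

/-- Block BASIS: the intervals `[a, b)` form a base of the Sorgenfrey line. -/
def BasisStm : Prop :=
  IsTopologicalBasis {s : Set Sorg | ∃ a b : ℝ, s = (Ico a b : Set ℝ)}

/-- Block SUBINF: the Sorgenfrey line has a base of subinfinite rank. -/
def SubinfStm : Prop := ∃ B : Set (Set Sorg), IsTopologicalBasis B ∧ SubinfiniteRank B

/-- Block SQUARE: the square of the Sorgenfrey line is not metacompact. -/
def SquareStm : Prop := ¬ Metacompact (Sorg × Sorg)

/-- The nonempty reverse well-ordered sets of reals with a least element. -/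
def RW : Type :=
  {A : Set ℝ // (∀ S ⊆ A, S.Nonempty → ∃ m, IsGreatest S m) ∧ ∃ m, IsLeast A m}

namespace RW

/-- the least element -/
noncomputable def f (A : RW) : ℝ := sInf A.1

/-- `B` is a downward end extension of `A` -/
def le (A B : RW) : Prop := A.1 = B.1 ∩ Ici A.f

/-- basic neighbourhoods: `A` and the end extensions whose next element is close to `f A` -/
def N (A : RW) (n : ℕ) : Set RW :=
  {B | A.le B ∧ (B = A ∨ ∃ b ∈ B.1, A.f - 1 / ((n : ℝ) + 1) < b ∧ b < A.f)}

/-- the tree topology -/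
instance : TopologicalSpace RW := generateFrom {s | ∃ (A : RW) (n : ℕ), s = A.N n}

end RW

/-- Block TOP: the tree space is `T1`, with a Noetherian base of rank one. -/
def TopStm : Prop :=
  T1Space RW ∧ IsTopologicalBasis {s : Set RW | ∃ (A : RW) (n : ℕ), s = A.N n} ∧
    Noetherian {s : Set RW | ∃ (A : RW) (n : ℕ), s = A.N n} ∧
    RankOne {s : Set RW | ∃ (A : RW) (n : ℕ), s = A.N n}

/-- Block LIM: increasing sequences of end extensions which are bounded below have limits. -/
def LimStm : Prop :=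
  (∀ A B C : RW, A.le B → B.le C → A.le C) ∧ (∀ A : RW, A.le A) ∧
  (∀ A B : RW, A.le B → B.f ≤ A.f) ∧ (∀ A B : RW, A.le B → A.f ≤ B.f → A = B) ∧
  (∀ (A : RW) (b : ℝ), b < A.f → ∃ B : RW, A.le B ∧ B.1 = insert b A.1 ∧ B.f = b) ∧
  ∀ (A : ℕ → RW) (c : ℝ), (∀ n, (A n).le (A (n + 1))) → (∀ n, c ≤ (A n).f) →
    ∃ B : RW, (∀ n, (A n).le B) ∧ c ≤ B.f

/-- the open subspace of the product -/
def Z : Set (Sorg × RW) := {p | @LE.le ℝ _ p.2.f p.1}

/-- Block NOT: the product with the Sorgenfrey line is not hereditarily metacompact. -/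
def NotStm : Prop := IsOpen Z ∧ ¬ Metacompact Z

/-- Block COUNT: countable products of spaces with Noetherian bases of subinfinite rank. -/
def CountStm : Prop :=
  ∀ (X : ℕ → Type u) [∀ i, TopologicalSpace (X i)] (Γ : ∀ i, Set (Set (X i))),
    (∀ i, IsTopologicalBasis (Γ i)) → (∀ i, Noetherian (Γ i)) → (∀ i, SubinfiniteRank (Γ i)) →
    ∀ S : Set (∀ i, X i), SigmaMetacompact S

end Pool.Agent.Y444.RP
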