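import Pool.Agent.Y444.RP.Stm

/-!
# A countable product of spaces with bases of rank one: definitions and blocks (helper444)
-/

set_option autoImplicit false

universe u v w

open Set TopologicalSpace

namespace Pool.Agent.Y444.RP

open Pool.Agent.Helper332.NB

/-- Every countable open cover has a point-finite open refinement. -/
def CountablyMetacompact (X : Type u) [TopologicalSpace X] : Prop :=
  ∀ U : ℕ → Set X, (∀ n, IsOpen (U n)) → ⋃ n, U n = univ →
    ∃ 𝒱 : Set (Set X), (∀ V ∈ 𝒱, IsOpen V) ∧ (∀ V ∈ 𝒱, ∃ n, V ⊆ U n) ∧ ⋃₀ 𝒱 = univ ∧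
      ∀ x : X, {V ∈ 𝒱 | x ∈ V}.Finite

section

variable (W : Type) [LinearOrder W]

/-- Sequences of natural numbers of length `a : W` (continued by zero). -/
def Nd : Type := {p : W × (W → ℕ) // ∀ i, p.1 ≤ i → p.2 i = 0}

variable {W}

/-- length -/
def Nd.len (A : Nd W) : W := A.1.1

/-- entries -/
def Nd.val (A : Nd W) (i : W) : ℕ := A.1.2 i

/-- `B` extends `A` -/
def Nd.le (A B : Nd W) : Prop := A.len ≤ B.len ∧ ∀ i < A.len, A.val i = B.val i

variable (W)

/-- Nodes `(A, false)` and isolated points `(A, true)` attached to them. -/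
def Xs : Type := Nd W × Bool

variable {W}

/-- Basic neighbourhoods of `(A, false)`: this point and the points over the extensions of `A`
whose next entry is at least `n`. -/
def Nb (A : Nd W) (n : ℕ) : Set (Xs W) :=
  {x | A.le x.1 ∧ (x = (A, false) ∨ (A.len < x.1.len ∧ n ≤ x.1.val A.len))}

variable (W)

/-- the base -/
def Bs : Set (Set (Xs W)) :=
  {s | (∃ (A : Nd W) (n : ℕ), s = Nb A n) ∨ ∃ A : Nd W, s = {((A, true) : Nd W × Bool)}}

instance : TopologicalSpace (Xs W) := generateFrom (Bs W)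

/-- Sequences of points not all of which are nodes. -/
def Zc : Set (ℕ → Xs W) := {q | ∃ k, (q k).2 = true}

end

/-- `W` is well-ordered, nonempty, and countable sets are strictly bounded. -/
def GoodW (W : Type) [LinearOrder W] : Prop :=
  WellFoundedLT W ∧ Nonempty W ∧ ∀ s : ℕ → W, ∃ b, ∀ n, s n < b

/-- Block WEX: there is such a well-order. -/
def WexStm : Prop := ∃ (W : Type) (_ : LinearOrder W), GoodW W

/-- Block TOP2: the space is `T1` with a Noetherian base of rank one. -/
def Top2Stm : Prop :=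
  ∀ (W : Type) [LinearOrder W], GoodW W →
    T1Space (Xs W) ∧ IsTopologicalBasis (Bs W) ∧ Noetherian (Bs W) ∧ RankOne (Bs W)

/-- Block LIM2: extensions form a partial order; one-point extensions; limits; a root. -/
def Lim2Stm : Prop :=
  ∀ (W : Type) [LinearOrder W], GoodW W →
    (∀ A : Nd W, A.le A) ∧ (∀ A B C : Nd W, A.le B → B.le C → A.le C) ∧
    (∀ (A : Nd W) (v : ℕ), ∃ B : Nd W, A.le B ∧ ∀ C : Nd W, B.le C → A.len < C.len ∧
      C.val A.len = v) ∧
    ∀ A : ℕ → Nd W, (∀ n, (A n).le (A (n + 1))) → ∃ B : Nd W, ∀ n, (A n).le B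

/-- Block BOX2: neighbourhoods in the countable power. -/
def Box2Stm : Prop :=
  ∀ (W : Type) [LinearOrder W], GoodW W → ∀ (O : Set (ℕ → Xs W)) (q : ℕ → Xs W), IsOpen O →
    q ∈ O → ∃ n : ℕ, ∀ u : ℕ → Xs W,
      (∀ i < n, ((q i).2 = true → u i = q i) ∧ ((q i).2 = false → u i ∈ Nb (q i).1 n)) → u ∈ O

/-- Block NOT2: the open subspace `Zc` of the countable power is not countably metacompact. -/
def Not2Stm : Prop :=
  ∀ (W : Type) [LinearOrder W], GoodW W → IsOpen (Zc W) ∧ ¬ CountablyMetacompact (Zc W)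

end Pool.Agent.Y444.RP
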